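import Pool.Agent.helper8.FF.Upper

/-!
MP_bb5cc8_nt, function field model. For polynomials over a finite field with `q` elements and every
choice of one residue class modulo each monic irreducible polynomial of degree `m`, the union of
these classes has, among the `N = q ^ d` polynomials of degree below `d` (`m < d ≤ 2m`), at least
`N ^ (1 - log 2 / log q) / (6 m log N)` elements; for the members of a set `Q` of such polynomials
alone, at least `(#Q / q ^ m) * N ^ (1 - log 2 / log q) / (3 log N)`. For `q` odd and `d = m + 1`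
some choice has a union of at most `q * ((q + 1) / 2) ^ m` elements.
-/

set_option autoImplicit false

open Polynomial

theorem Pool.Agent.Results.MP_bb5cc8_nt.FunctionField.result
    (F : Type*) [Field F] [Fintype F] (m d : ℕ) (hm : 1 ≤ m) (hmd : m < d) (hd : d ≤ 2 * m) :
    (∀ a : F[X] → F[X],
      ((Fintype.card F : ℝ) ^ d) ^ (1 - Real.log 2 / Real.log (Fintype.card F)) /
          (6 * m * Real.log ((Fintype.card F : ℝ) ^ d)) ≤
        ({n : F[X] | n.degree < d ∧
          ∃ p : F[X], p.Monic ∧ Irreducible p ∧ p.natDegree = m ∧ p ∣ n - a p}.ncard : ℝ)) ∧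
    (∀ (a : F[X] → F[X]) (Q : Set F[X]),
      (∀ p ∈ Q, p.Monic ∧ Irreducible p ∧ p.natDegree = m) →
        (Q.ncard : ℝ) / (Fintype.card F : ℝ) ^ m *
          ((Fintype.card F : ℝ) ^ d) ^ (1 - Real.log 2 / Real.log (Fintype.card F)) /
          (3 * Real.log ((Fintype.card F : ℝ) ^ d)) ≤
        ({n : F[X] | n.degree < d ∧ ∃ p ∈ Q, p ∣ n - a p}.ncard : ℝ)) ∧
    (Odd (Fintype.card F) → d = m + 1 → ∃ a : F[X] → F[X],
      {n : F[X] | n.degree < d ∧
          ∃ p : F[X], p.Monic ∧ Irreducible p ∧ p.natDegree = m ∧ p ∣ n - a p}.ncard ≤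
        Fintype.card F * ((Fintype.card F + 1) / 2) ^ m) := by
  have hset : ∀ a : F[X] → F[X], {n : F[X] | n.degree < d ∧
      ∃ p : F[X], p.Monic ∧ Irreducible p ∧ p.natDegree = m ∧ p ∣ n - a p} =
      Pool.Agent.helper8.FF.hitSet (Pool.Agent.helper8.FF.irr F m) a d := by
    intro a
    ext n
    constructor
    · rintro ⟨h1, p, h2, h3, h4, h5⟩
      exact ⟨h1, p, ⟨h2, h3, h4⟩, h5⟩
    · rintro ⟨h1, p, ⟨h2, h3, h4⟩, h5⟩
      exact ⟨h1, p, h2, h3, h4, h5⟩
  refine ⟨?_, ?_, ?_⟩
  · intro a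
    rw [hset]
    exact Pool.Agent.helper8.FF.main_all m d hm hmd hd a
  · intro a Q hQ
    exact Pool.Agent.helper8.FF.main_subset m d hm hmd hd Q hQ a
  · intro hq hdm
    subst hdm
    obtain ⟨a, ha⟩ := Pool.Agent.helper8.FF.small_choice (F := F) m hq
    refine ⟨a, ?_⟩
    rw [hset]
    exact ha
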